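import Mathlib
import Pool.Agent.MP_1f2b6a_al.Defs
import Pool.Agent.MP_1f2b6a_al.Mg.Main

namespace Pool.Agent.Results.MP_1f2b6a_al.Metabelian

/-- For every finite metabelian group the class-preserving outer automorphism group is nilpotent
of class at most three. -/
theorem result (G : Type*) [Group G] [Finite G] (hG : derivedSeries G 2 = ⊥) :
    Group.IsNilpotent (Pool.Agent.MP_1f2b6a_al.Outc G) ∧
      Group.nilpotencyClass (Pool.Agent.MP_1f2b6a_al.Outc G) ≤ 3 := by
  have hA : ∀ a ∈ commutator G, ∀ b ∈ commutator G, a * b = b * a := by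
    intro a ha b hb
    have h : ⁅commutator G, commutator G⁆ = ⊥ := hG
    have := Subgroup.commutator_mem_commutator ha hb
    rw [h, Subgroup.mem_bot] at this
    exact commutatorElement_eq_one_iff_mul_comm.1 this
  have h3 := Pool.Agent.MP_1f2b6a_al.lcs_three hA
  have hn : Group.IsNilpotent (Pool.Agent.MP_1f2b6a_al.Outc G) :=
    Subgroup.nilpotent_iff_lowerCentralSeries.2 ⟨3, h3⟩
  exact ⟨hn, Subgroup.lowerCentralSeries_eq_bot_iff_nilpotencyClass_le.1 h3⟩

end Pool.Agent.Results.MP_1f2b6a_al.Metabelian
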